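import Pool.Agent.Y892.TB.C4

/-!
Monomials in `B` and `M`: triangular families of exponent vectors (a general form of `TB.C1`).
-/

set_option autoImplicit false

open Finset Filter

namespace Pool.Agent.Y892.TD

open Pool.Agent.Y855 Pool.Agent.Y892.TB

/-- multiplicative independence of `M` modulo the group generated by `B` -/
def Ind (B M : Finset ℕ) : Prop :=
  ∀ (a c : ℕ → ℤ), (∏ t ∈ B, (t : ℚ) ^ (a t)) * ∏ m ∈ M, (m : ℚ) ^ (c m) = 1 → ∀ m ∈ M, c m = 0

/-- the monomial with exponents `b.1` and `b.2` -/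
def mon (B M : Finset ℕ) (b : (ℕ → ℕ) × (ℕ → ℕ)) : ℤ :=
  (∏ t ∈ B, (t : ℤ) ^ (b.1 t)) * ∏ m ∈ M, (m : ℤ) ^ (b.2 m)

theorem mon_ne {B M : Finset ℕ} (hB : ∀ t ∈ B, 1 ≤ t) (h1 : ∀ m ∈ M, 1 ≤ m)
    (b : (ℕ → ℕ) × (ℕ → ℕ)) : mon B M b ≠ 0 := by
  unfold mon
  refine mul_ne_zero (prod_ne_zero_iff.2 fun m hm => pow_ne_zero _ ?_)
    (prod_ne_zero_iff.2 fun m hm => pow_ne_zero _ ?_)
  · have := hB m hm
    exact_mod_cast (by omega : m ≠ 0)
  · have := h1 m hm
    exact_mod_cast (by omega : m ≠ 0)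

/-- either few members of `M` meet the supports of all vectors in `B`, or there is a long
triangular family in `B` -/
theorem tri (M : Finset ℕ) (B : Set ((ℕ → ℕ) × (ℕ → ℕ))) (hB : ∀ b ∈ B, ∃ m ∈ M, b.2 m ≠ 0) (k : ℕ) :
    (∃ E ⊆ M, E.card < k ∧ ∀ b ∈ B, ∃ m ∈ E, b.2 m ≠ 0) ∨
    ∃ (b : Fin k → (ℕ → ℕ) × (ℕ → ℕ)) (m : Fin k → ℕ), (∀ i, b i ∈ B) ∧ (∀ i, m i ∈ M) ∧
      (∀ i, (b i).2 (m i) ≠ 0) ∧ ∀ i j, i < j → (b j).2 (m i) = 0 := by
  classical
  induction k with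
  | zero => exact Or.inr ⟨fun i => i.elim0, fun i => i.elim0, fun i => i.elim0, fun i => i.elim0,
      fun i => i.elim0, fun i => i.elim0⟩
  | succ k ih =>
    rcases ih with ⟨E, hE, hEk, hEB⟩ | ⟨b, m, hb, hm, hbm, htri⟩
    · exact Or.inl ⟨E, hE, by omega, hEB⟩
    · by_cases hcov : ∀ b' ∈ B, ∃ i, b'.2 (m i) ≠ 0
      · left
        refine ⟨univ.image m, ?_, ?_, ?_⟩
        · intro t ht
          rw [mem_image] at ht
          obtain ⟨i, -, rfl⟩ := ht
          exact hm i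
        · exact lt_of_le_of_lt card_image_le (by simp)
        · intro b' hb'
          obtain ⟨i, hi⟩ := hcov b' hb'
          exact ⟨m i, mem_image_of_mem _ (mem_univ _), hi⟩
      · right
        push Not at hcov
        obtain ⟨b', hb', hz⟩ := hcov
        obtain ⟨t, ht, htb⟩ := hB b' hb'
        refine ⟨Fin.snoc b b', Fin.snoc m t, ?_, ?_, ?_, ?_⟩
        · intro i
          refine Fin.lastCases ?_ (fun i => ?_) i
          · rw [Fin.snoc_last]; exact hb'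
          · rw [Fin.snoc_castSucc]; exact hb i
        · intro i
          refine Fin.lastCases ?_ (fun i => ?_) i
          · rw [Fin.snoc_last]; exact ht
          · rw [Fin.snoc_castSucc]; exact hm i
        · intro i
          refine Fin.lastCases ?_ (fun i => ?_) i
          · rw [Fin.snoc_last, Fin.snoc_last]; exact htb
          · rw [Fin.snoc_castSucc, Fin.snoc_castSucc]; exact hbm i
        · intro i j
          refine Fin.lastCases ?_ (fun j => ?_) j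
          · refine Fin.lastCases ?_ (fun i => ?_) i
            · intro h; exact absurd h (lt_irrefl _)
            · intro _
              rw [Fin.snoc_last, Fin.snoc_castSucc]
              exact hz i
          · refine Fin.lastCases ?_ (fun i => ?_) i
            · intro h
              exact absurd h (not_lt.2 (Fin.le_last _))
            · intro h
              rw [Fin.snoc_castSucc, Fin.snoc_castSucc]
              exact htri i j (by simpa using h)

theorem prod_zpow_sum {k : ℕ} (S : Finset ℕ) (hS : ∀ t ∈ S, 1 ≤ t) (e : Fin k → ℕ → ℕ)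
    (c : Fin k → ℤ) : ∏ i, (∏ t ∈ S, (t : ℚ) ^ (e i t)) ^ (c i) =
      ∏ t ∈ S, (t : ℚ) ^ (∑ i, ((e i t : ℕ) : ℤ) * c i) := by
  have e1 : ∀ i, (∏ t ∈ S, (t : ℚ) ^ (e i t)) ^ (c i) =
      ∏ t ∈ S, (t : ℚ) ^ (((e i t : ℕ) : ℤ) * c i) := by
    intro i
    rw [← Finset.prod_zpow]
    apply prod_congr rfl
    intro t _
    rw [← zpow_natCast, ← zpow_mul]
  simp only [e1]
  rw [Finset.prod_comm]
  apply prod_congr rfl
  intro t ht
  have ht0 : (t : ℚ) ≠ 0 := by
    have := hS t ht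
    exact_mod_cast (by omega : t ≠ 0)
  induction (univ : Finset (Fin k)) using Finset.induction_on with
  | empty => simp
  | insert a s ha ih => rw [prod_insert ha, sum_insert ha, zpow_add₀ ht0, ih]

/-- the values of a triangular family have no multiplicative relation -/
theorem tri_rel {B M : Finset ℕ} (hM : Ind B M) (hB : ∀ t ∈ B, 1 ≤ t) (h1 : ∀ m ∈ M, 1 ≤ m) {k : ℕ}
    (b : Fin k → (ℕ → ℕ) × (ℕ → ℕ)) (m : Fin k → ℕ) (hm : ∀ i, m i ∈ M)
    (hbm : ∀ i, (b i).2 (m i) ≠ 0) (htri : ∀ i j, i < j → (b j).2 (m i) = 0)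
    (c : Fin k → ℤ) (hc : ∏ i, ((mon B M (b i) : ℤ) : ℚ) ^ (c i) = 1) : ∀ i, c i = 0 := by
  have h2 : ∏ i, ((mon B M (b i) : ℤ) : ℚ) ^ (c i) =
      (∏ t ∈ B, (t : ℚ) ^ (∑ i, (((b i).1 t : ℕ) : ℤ) * c i)) *
        ∏ t ∈ M, (t : ℚ) ^ (∑ i, (((b i).2 t : ℕ) : ℤ) * c i) := by
    rw [← prod_zpow_sum B hB (fun i => (b i).1) c, ← prod_zpow_sum M h1 (fun i => (b i).2) c,
      ← prod_mul_distrib]
    apply prod_congr rfl
    intro i _
    rw [← mul_zpow]
    congr 1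
    unfold mon
    push_cast
    rfl
  rw [h2] at hc
  have h3 := hM _ _ hc
  intro i
  induction i using WellFoundedLT.induction with
  | ind i ih =>
    have h4 := h3 (m i) (hm i)
    rw [Finset.sum_eq_single i] at h4
    · rcases mul_eq_zero.1 h4 with h5 | h5
      · exact absurd (by exact_mod_cast h5) (hbm i)
      · exact h5
    · intro j _ hji
      rcases lt_or_gt_of_ne hji with h5 | h5
      · rw [ih j h5, mul_zero]
      · rw [htri i j h5]
        simp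
    · intro h5
      exact absurd (mem_univ _) h5

theorem tri_inj {B M : Finset ℕ} (hM : Ind B M) (hB : ∀ t ∈ B, 1 ≤ t) (h1 : ∀ m ∈ M, 1 ≤ m) {k : ℕ}
    (b : Fin k → (ℕ → ℕ) × (ℕ → ℕ)) (m : Fin k → ℕ) (hm : ∀ i, m i ∈ M)
    (hbm : ∀ i, (b i).2 (m i) ≠ 0) (htri : ∀ i j, i < j → (b j).2 (m i) = 0) :
    Function.Injective (fun i => mon B M (b i)) := by
  classical
  intro i j hij
  simp only at hij
  by_contra hne
  have h2 := tri_rel hM hB h1 b m hm hbm htri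
    (fun t => if t = i then 1 else if t = j then -1 else 0) (by
    have h0 : ((mon B M (b j) : ℤ) : ℚ) ≠ 0 := by exact_mod_cast mon_ne hB h1 (b j)
    rw [← Finset.mul_prod_erase univ _ (mem_univ i),
      ← Finset.mul_prod_erase (univ.erase i) _ (mem_erase.2 ⟨Ne.symm hne, mem_univ j⟩)]
    rw [if_pos rfl, if_neg (Ne.symm hne), if_pos rfl, hij, prod_eq_one, mul_one, zpow_one, zpow_neg,
      zpow_one, mul_inv_cancel₀ h0]
    intro t ht
    rw [mem_erase, mem_erase] at ht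
    rw [if_neg ht.2.1, if_neg ht.1, zpow_zero]) i
  rw [if_pos rfl] at h2
  exact one_ne_zero h2

theorem tri_MI {B M : Finset ℕ} (hM : Ind B M) (hB : ∀ t ∈ B, 1 ≤ t) (h1 : ∀ m ∈ M, 1 ≤ m) {k : ℕ}
    (b : Fin k → (ℕ → ℕ) × (ℕ → ℕ)) (m : Fin k → ℕ) (hm : ∀ i, m i ∈ M)
    (hbm : ∀ i, (b i).2 (m i) ≠ 0) (htri : ∀ i j, i < j → (b j).2 (m i) = 0) :
    MI (univ.image (fun i => mon B M (b i))) := by
  classical
  intro c hc n hn
  rw [prod_image (fun i _ j _ h => tri_inj hM hB h1 b m hm hbm htri h)] at hc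
  rw [mem_image] at hn
  obtain ⟨i, -, rfl⟩ := hn
  exact tri_rel hM hB h1 b m hm hbm htri (fun i => c (mon B M (b i))) hc i

/-- `g` is a product of members of `B` and of members of `F`, of the latter at least one -/
def Gen (B F : Finset ℕ) (g : ℕ) : Prop :=
  ∃ (a e : ℕ → ℕ), (∃ m ∈ F, e m ≠ 0) ∧ g = (∏ t ∈ B, t ^ (a t)) * ∏ m ∈ F, m ^ (e m)

theorem Gen.mono {B F F' : Finset ℕ} (hF : F ⊆ F') {g : ℕ} (h : Gen B F g) : Gen B F' g := by
  classical
  obtain ⟨a, e, ⟨m, hm, hme⟩, rfl⟩ := h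
  refine ⟨a, fun t => if t ∈ F then e t else 0, ⟨m, hF hm, by simp only; rw [if_pos hm]; exact hme⟩, ?_⟩
  congr 1
  rw [← prod_subset hF]
  · apply prod_congr rfl
    intro t ht
    simp only
    rw [if_pos ht]
  · intro t _ ht
    simp only
    rw [if_neg ht, pow_zero]

theorem Gen.pos {B F : Finset ℕ} (hB : ∀ t ∈ B, 1 ≤ t) (h1 : ∀ m ∈ F, 1 ≤ m) {g : ℕ}
    (h : Gen B F g) : 1 ≤ g := by
  obtain ⟨a, e, -, rfl⟩ := h
  have : 0 < (∏ t ∈ B, t ^ (a t)) * ∏ m ∈ F, m ^ (e m) :=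
    Nat.mul_pos (Finset.prod_pos fun m hm => Nat.pow_pos (hB m hm))
      (Finset.prod_pos fun m hm => Nat.pow_pos (h1 m hm))
  omega

/-- `p` does not divide `g` and `g` is no `l`-th power modulo `p` for all primes `l > z` dividing
`p - 1` -/
def NP (z p g : ℕ) : Prop := ¬ p ∣ g ∧ ∀ l : ℕ, l.Prime → l ∣ p - 1 → z < l →
  (g : ZMod p) ^ ((p - 1) / l) ≠ 1

open Classical in
/-- the set of values -/
noncomputable def VG (G : Finset ℕ) : Finset ℤ := G.image (fun g : ℕ => (g : ℤ))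

open Classical in
theorem pointwise (x z k K₀ : ℕ) (B M G : Finset ℕ) (hM : Ind B M) (hB : ∀ t ∈ B, 1 ≤ t)
    (h1 : ∀ m ∈ M, 1 ≤ m) (hK : x ≤ (z + 1) ^ K₀) {p : ℕ} (hpx : p ≤ x) (hpp : p.Prime)
    (hpE : p ∉ ExV x z k (VG G)) (hpB : ∀ t ∈ B, t < p) (hpM : ∀ m ∈ M, m < p) :
    ∃ E ⊆ M, E.card ≤ K₀ * k ∧ ∀ g ∈ G, Gen B (M \ E) g → NP z p g := by
  have hp1 : 1 ≤ p := hpp.one_le
  have hpi : Prime (p : ℤ) := Nat.prime_iff_prime_int.1 hpp
  have hndM : ∀ m ∈ M, ¬ p ∣ m := by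
    intro m hm hd
    have h2 := Nat.le_of_dvd (h1 m hm) hd
    have h3 := hpM m hm
    omega
  have hndB : ∀ m ∈ B, ¬ p ∣ m := by
    intro m hm hd
    have h2 := Nat.le_of_dvd (hB m hm) hd
    have h3 := hpB m hm
    omega
  have hndm : ∀ b : (ℕ → ℕ) × (ℕ → ℕ), ¬ (p : ℤ) ∣ mon B M b := by
    intro b hd
    unfold mon at hd
    rcases hpi.dvd_or_dvd hd with h | h
    · obtain ⟨m, hm, h2⟩ := (Prime.dvd_finsetProd_iff hpi _).1 h
      have h3 := hpi.dvd_of_dvd_pow h2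
      exact hndB m hm (by exact_mod_cast h3)
    · obtain ⟨m, hm, h2⟩ := (Prime.dvd_finsetProd_iff hpi _).1 h
      have h3 := hpi.dvd_of_dvd_pow h2
      exact hndM m hm (by exact_mod_cast h3)
  -- the bad vectors
  have hchoice : ∀ l ∈ LFp z p, ∃ E ⊆ M, E.card < k + 1 ∧
      ∀ b : (ℕ → ℕ) × (ℕ → ℕ), (∃ m ∈ M, b.2 m ≠ 0) → mon B M b ∈ VG G →
        (mon B M b : ZMod p) ^ ((p - 1) / l) = 1 → ∃ m ∈ E, b.2 m ≠ 0 := by
    intro l hl
    unfold LFp at hl
    rw [mem_filter] at hl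
    have hlp := Nat.dvd_of_mem_primeFactors hl.1
    have hlpr := Nat.prime_of_mem_primeFactors hl.1
    rcases tri M {b | (∃ m ∈ M, b.2 m ≠ 0) ∧ mon B M b ∈ VG G ∧
        (mon B M b : ZMod p) ^ ((p - 1) / l) = 1} (fun b hb => hb.1) k with
      ⟨E, hE, hEk, hEB⟩ | ⟨b, m, hb, hm, hbm, htri⟩
    · exact ⟨E, hE, by omega, fun b hb1 hb2 hb3 => hEB b ⟨hb1, hb2, hb3⟩⟩
    · exfalso
      apply hpE
      unfold ExV
      rw [mem_filter, mem_Icc]
      refine ⟨⟨hp1, hpx⟩, hpp, l, hlpr, hlp, hl.2, univ.image (fun i => mon B M (b i)), ?_, ?_,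
        tri_MI hM hB h1 b m hm hbm htri, ?_⟩
      · intro n hn
        rw [mem_image] at hn
        obtain ⟨i, -, rfl⟩ := hn
        exact (hb i).2.1
      · rw [card_image_of_injective _ (tri_inj hM hB h1 b m hm hbm htri), card_univ,
          Fintype.card_fin]
      · intro n hn
        rw [mem_image] at hn
        obtain ⟨i, -, rfl⟩ := hn
        exact ⟨hndm _, (hb i).2.2⟩
  have hchoice' : ∀ l : ℕ, ∃ E ⊆ M, E.card < k + 1 ∧ (l ∈ LFp z p →
      ∀ b : (ℕ → ℕ) × (ℕ → ℕ), (∃ m ∈ M, b.2 m ≠ 0) → mon B M b ∈ VG G →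
        (mon B M b : ZMod p) ^ ((p - 1) / l) = 1 → ∃ m ∈ E, b.2 m ≠ 0) := by
    intro l
    by_cases hl : l ∈ LFp z p
    · obtain ⟨E, h2, h3, h4⟩ := hchoice l hl
      exact ⟨E, h2, h3, fun _ => h4⟩
    · exact ⟨∅, empty_subset _, by simp, fun h => absurd h hl⟩
  choose E hEM hEk hE using hchoice'
  refine ⟨(LFp z p).biUnion E, ?_, ?_, ?_⟩
  · intro t ht
    rw [mem_biUnion] at ht
    obtain ⟨l, -, ht⟩ := ht
    exact hEM l ht
  · calc ((LFp z p).biUnion E).card ≤ ∑ l ∈ LFp z p, (E l).card := card_biUnion_le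
      _ ≤ ∑ _l ∈ LFp z p, k := sum_le_sum fun l _ => by have := hEk l; omega
      _ = (LFp z p).card * k := by rw [sum_const, smul_eq_mul]
      _ ≤ K₀ * k := Nat.mul_le_mul_right k (LFp_card hpp hpx hK)
  · intro g hg hgen
    obtain ⟨a, e, ⟨m, hm, hme⟩, hge⟩ := hgen
    rw [Finset.mem_sdiff, mem_biUnion] at hm
    -- the exponent vector of `g`
    set b : (ℕ → ℕ) × (ℕ → ℕ) := (a, fun t => if t ∈ M \ (LFp z p).biUnion E then e t else 0)
      with hb
    have hmon : mon B M b = (g : ℤ) := by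
      unfold mon
      rw [hge]
      push_cast
      have e1 : ∏ t ∈ M, (t : ℤ) ^ (b.2 t) =
          ∏ t ∈ M \ (LFp z p).biUnion E, (t : ℤ) ^ (e t) := by
        rw [← prod_subset (sdiff_subset (s := M) (t := (LFp z p).biUnion E))]
        · apply prod_congr rfl
          intro t ht
          simp only [hb]
          rw [if_pos ht]
        · intro t _ ht
          simp only [hb]
          rw [if_neg ht, pow_zero]
      rw [e1]
    have hgp : ¬ p ∣ g := by
      intro hd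
      apply hndm b
      rw [hmon]
      exact_mod_cast hd
    refine ⟨hgp, ?_⟩
    intro l hl hlp hzl heq
    have hlL : l ∈ LFp z p := by
      unfold LFp
      rw [mem_filter, Nat.mem_primeFactors]
      exact ⟨⟨hl, hlp, by have := hpp.two_le; omega⟩, hzl⟩
    have hbm : b.2 m ≠ 0 := by
      simp only [hb]
      rw [if_pos (by rw [Finset.mem_sdiff, mem_biUnion]; exact hm)]
      exact hme
    obtain ⟨t, ht, hbt⟩ := hE l hlL b ⟨m, hm.1, hbm⟩
      (by rw [hmon]; exact mem_image_of_mem _ hg) (by rw [hmon, Int.cast_natCast]; exact heq)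
    apply hbt
    simp only [hb]
    rw [if_neg]
    rw [Finset.mem_sdiff, not_and, not_not, mem_biUnion]
    exact fun _ => ⟨l, hlL, ht⟩

end Pool.Agent.Y892.TD
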