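import Pool.Agent.Y892.TD.D1

/-!
The number of the primes `p ≤ x`, `p ≡ a (mod m)`, such that all the prime factors of `p - 1` which do
not divide `m` exceed `x ^ c`.
-/

set_option autoImplicit false

open Finset Filter

namespace Pool.Agent.Y892.TD

open Pool.Agent.Y855 Pool.Agent.H442R2.KF

/-- the odd primes up to `z` which do not divide `m` -/
def OPm (m z : ℕ) : Finset ℕ := (OP z).filter (fun q => ¬ q ∣ m)

/-- the sifted primes in the class `a` modulo `m` -/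
def TS (m a x z : ℕ) : Finset ℕ := NS x m a (OPm m z)

theorem mem_TS {m a x z p : ℕ} (h2 : 2 ∣ m) : p ∈ TS m a x z ↔ (1 ≤ p ∧ p ≤ x) ∧ p.Prime ∧
    p ≡ a [MOD m] ∧ ∀ q : ℕ, q.Prime → ¬ q ∣ m → q ∣ p - 1 → z < q := by
  unfold TS NS OPm
  rw [mem_filter, mem_Icc]
  constructor
  · rintro ⟨h1, h3, h4, h5⟩
    refine ⟨h1, h3, h4, fun q hq hqm hqd => ?_⟩
    by_contra hqz
    refine h5 q ?_ hqd
    rw [mem_filter, mem_OP]
    refine ⟨⟨hq, ?_, by omega⟩, hqm⟩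
    have : q ≠ 2 := by rintro rfl; exact hqm h2
    have := hq.two_le
    omega
  · rintro ⟨h1, h3, h4, h5⟩
    refine ⟨h1, h3, h4, fun q hq hqd => ?_⟩
    rw [mem_filter, mem_OP] at hq
    have := h5 q hq.1.1 hq.2 hqd
    omega

theorem VP_mono {m z : ℕ} : VP (OP z) ≤ VP (OPm m z) := by
  unfold VP OPm
  rw [← prod_filter_mul_prod_filter_not (OP z) (fun q => ¬ q ∣ m)]
  have h0 : ∀ q ∈ OP z, (0 : ℝ) ≤ 1 - 1 / ((q : ℝ) - 1) ∧ 1 - 1 / ((q : ℝ) - 1) ≤ 1 := by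
    intro q hq
    have h3 : (3 : ℝ) ≤ q := by exact_mod_cast (mem_OP.1 hq).2.1
    have h4 : 1 / ((q : ℝ) - 1) ≤ 1 := by rw [div_le_one (by linarith)]; linarith
    have h5 : 0 ≤ 1 / ((q : ℝ) - 1) := by
      apply div_nonneg zero_le_one; linarith
    constructor <;> linarith
  have h1 : ∏ q ∈ (OP z).filter (fun q => ¬ ¬ q ∣ m), (1 - 1 / ((q : ℝ) - 1)) ≤ 1 :=
    prod_le_one (fun q hq => (h0 q (mem_filter.1 hq).1).1) fun q hq => (h0 q (mem_filter.1 hq).1).2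
  have h2 : 0 ≤ ∏ q ∈ (OP z).filter (fun q => ¬ q ∣ m), (1 - 1 / ((q : ℝ) - 1)) :=
    prod_nonneg fun q hq => (h0 q (mem_filter.1 hq).1).1
  nlinarith

theorem TS_lower : ∃ c : ℝ, 0 < c ∧ c < 1 ∧ ∀ m a : ℕ, 1 ≤ m → a.Coprime m →
    ∃ η : ℝ, 0 < η ∧ ∀ᶠ x : ℕ in atTop,
    η * ((x : ℝ) / (Real.log x) ^ 2) ≤ ((TS m a x ⌊(x : ℝ) ^ c⌋₊).card : ℝ) := by
  obtain ⟨B, hB, hsieve⟩ := sieve_class (1 / 2) (by norm_num)
  obtain ⟨C, hC, hbv⟩ := bvEs 4
  obtain ⟨cV, hcV, hV⟩ := VP_lower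
  obtain ⟨X₁, hX₁, hpi⟩ := piN_ge
  have hB0 : (0 : ℝ) < B := by exact_mod_cast hB
  set c : ℝ := 1 / (5 * B) with hc
  have hc0 : 0 < c := by positivity
  have hc1 : c < 1 := by
    rw [hc, div_lt_one (by positivity)]
    have : (1 : ℝ) ≤ B := by exact_mod_cast hB
    linarith
  have hcB : c * B = 1 / 5 := by rw [hc]; field_simp
  refine ⟨c, hc0, hc1, fun m a hm ha => ?_⟩
  have hφ0 : (0 : ℝ) < Nat.totient m := by exact_mod_cast Nat.totient_pos.2 hm
  obtain ⟨F, hF⟩ : ∃ F : ℝ, F = Nat.totient m := ⟨_, rfl⟩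
  rw [← hF] at hφ0
  refine ⟨cV / (8 * F), by positivity, ?_⟩
  have h3 := tendsto_natCast_atTop_atTop (R := ℝ)
  have hlog : Tendsto (fun x : ℕ => Real.log (x : ℝ)) atTop atTop := Real.tendsto_log_atTop.comp h3
  have e1 : ∀ᶠ x : ℕ in atTop, (2 : ℝ) ≤ (x : ℝ) ^ c :=
    h3.eventually ((tendsto_rpow_atTop hc0).eventually_ge_atTop 2)
  have e2 : ∀ᶠ x : ℕ in atTop, (m : ℝ) ≤ (x : ℝ) ^ (1 / 5 : ℝ) :=
    h3.eventually ((tendsto_rpow_atTop (by norm_num)).eventually_ge_atTop _)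
  filter_upwards [e1, e2, eventually_ge_atTop X₁, hlog.eventually_ge_atTop 2,
    hlog.eventually_ge_atTop (32 * F * C / cV)] with x e1 e2 hx1 hL2 hLC
  have hx3 : 3 ≤ x := hX₁.trans hx1
  have hx3' : (3 : ℝ) ≤ x := by exact_mod_cast hx3
  have hx0 : (0 : ℝ) < x := by linarith
  set z := ⌊(x : ℝ) ^ c⌋₊ with hz
  set L := Real.log x with hL
  have hL0 : 0 < L := by linarith
  have hz2 : 2 ≤ z := Nat.le_floor (by exact_mod_cast e1)
  have hz2' : (2 : ℝ) ≤ z := by exact_mod_cast hz2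
  have hzc : (z : ℝ) ≤ (x : ℝ) ^ c := Nat.floor_le (by positivity)
  have hlz0 : 0 < Real.log z := Real.log_pos (by linarith)
  have hlz : Real.log z ≤ L := by
    apply Real.log_le_log (by linarith)
    calc (z : ℝ) ≤ (x : ℝ) ^ c := hzc
      _ ≤ (x : ℝ) ^ (1 : ℝ) := Real.rpow_le_rpow_of_exponent_le (by linarith) hc1.le
      _ = x := Real.rpow_one _
  have hs := hsieve z hz2 (OPm m z) (fun p hp => mem_OP.1 (mem_filter.1 hp).1) m hm (by
    intro p hp h8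
    exact (mem_filter.1 hp).2 h8) a ha x
  rw [← hF] at hs
  have hs1 := (abs_le.1 hs).1
  -- the error
  have herr : ErS x m z B (OPm m z) ≤ C * (x / L ^ 4) := by
    have h4 := ErS_le x m z B hm (OPm m z) (fun p hp => (mem_OP.1 (mem_filter.1 hp).1).1)
    refine h4.trans (le_trans ?_ (hbv x hx3))
    apply sum_le_sum_of_subset_of_nonneg
    · apply Icc_subset_Icc_right
      apply Nat.le_floor
      push_cast
      have h5 : (z : ℝ) ^ B ≤ (x : ℝ) ^ (1 / 5 : ℝ) := by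
        calc (z : ℝ) ^ B ≤ ((x : ℝ) ^ c) ^ B := pow_le_pow_left₀ (by positivity) hzc B
          _ = (x : ℝ) ^ (1 / 5 : ℝ) := by
              rw [← Real.rpow_natCast, ← Real.rpow_mul hx0.le, hcB]
      calc (m : ℝ) * (z : ℝ) ^ B ≤ (x : ℝ) ^ (1 / 5 : ℝ) * (x : ℝ) ^ (1 / 5 : ℝ) := by gcongr
        _ = (x : ℝ) ^ (2 / 5 : ℝ) := by
            rw [← Real.rpow_add hx0]
            norm_num
    · intro d _ _
      exact Es_nonneg x d
  have hlog2 : ((Nat.log 2 z : ℝ) + 2) ≤ 4 * L := by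
    have h5 : (Nat.log 2 z : ℝ) * Real.log 2 ≤ Real.log z := by
      have h6 : 2 ^ Nat.log 2 z ≤ z := Nat.pow_log_le_self 2 (by omega)
      have h7 : ((2 : ℝ)) ^ Nat.log 2 z ≤ z := by exact_mod_cast h6
      have h8 := Real.log_le_log (by positivity) h7
      rwa [Real.log_pow] at h8
    have h6 := Real.log_two_gt_d9
    have h7 : (0 : ℝ) ≤ Nat.log 2 z := Nat.cast_nonneg _
    nlinarith
  have hpix := hpi x hx1
  have hVz := hV z hz2
  have hmain : cV / (2 * F) * (x / L ^ 2) ≤ (piN x : ℝ) / F * VP (OPm m z) := by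
    have h5 : cV / L ≤ VP (OPm m z) :=
      (le_trans (div_le_div_of_nonneg_left hcV.le hlz0 hlz) hVz).trans VP_mono
    calc cV / (2 * F) * (x / L ^ 2) = (x / (2 * L)) / F * (cV / L) := by
          field_simp
      _ ≤ _ := by
          apply mul_le_mul _ h5 (by positivity) (by positivity)
          apply div_le_div_of_nonneg_right hpix hφ0.le
  have herr2 : ((Nat.log 2 z : ℝ) + 2) * ErS x m z B (OPm m z) ≤ cV / (8 * F) * (x / L ^ 2) := by
    calc ((Nat.log 2 z : ℝ) + 2) * ErS x m z B (OPm m z) ≤ (4 * L) * (C * (x / L ^ 4)) :=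
          mul_le_mul hlog2 herr (ErS_nonneg _ _ _ _ _) (by positivity)
      _ = 4 * C / L * (x / L ^ 2) := by
          field_simp
      _ ≤ cV / (8 * F) * (x / L ^ 2) := by
          apply mul_le_mul_of_nonneg_right _ (by positivity)
          rw [div_le_div_iff₀ hL0 (by positivity)]
          rw [div_le_iff₀ hcV] at hLC
          linarith
  have hfin : ((TS m a x z).card : ℝ) = ((NS x m a (OPm m z)).card : ℝ) := rfl
  rw [hfin]
  have h0 : 0 ≤ cV / (2 * F) * (x / L ^ 2) := by positivity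
  have h00 : cV / (8 * F) * (x / L ^ 2) = 1 / 4 * (cV / (2 * F) * (x / L ^ 2)) := by
    field_simp
    norm_num
  linarith

end Pool.Agent.Y892.TD
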