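import Pool.Agent.Y892.TD.D3
import Pool.Agent.Y892.TD.D4

/-!
The index of all the generated numbers at once, for the sifted primes `p ≡ a (mod m)`.
-/

set_option autoImplicit false

open Finset Filter

namespace Pool.Agent.Y892.TD

open Pool.Agent.Y855
open Pool.Agent.Y892.TB (ka kk ka_pos ka_le ev_w ev_w0)

/-- `p` does not divide `g` and the index of `g` and of `-g` modulo `p` divides `k` -/
def PI (k p g : ℕ) : Prop := ¬ p ∣ g ∧ ∀ u : (ZMod p)ˣ, ((u : ZMod p) = g ∨ (u : ZMod p) = -g) →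
  (Subgroup.zpowers u).index ∣ k

theorem index_dvd {m a p z : ℕ} (hp : p.Prime) (h2 : 2 ∣ m) (hm : 1 ≤ m) (ha : a.Coprime m)
    (hcond : ∀ l : ℕ, l.Prime → l ∣ m → l ∣ m / Nat.gcd (a - 1) m)
    (hpa : p ≡ a [MOD m]) (hz : ∀ q : ℕ, q.Prime → ¬ q ∣ m → q ∣ p - 1 → z < q)
    (u : (ZMod p)ˣ) (hu : ∀ l : ℕ, l.Prime → l ∣ p - 1 → z < l → (u : ZMod p) ^ ((p - 1) / l) ≠ 1) :
    (Subgroup.zpowers u).index ∣ Nat.gcd (a - 1) m := by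
  have : Fact p.Prime := ⟨hp⟩
  have hp1 : 0 < p - 1 := by have := hp.two_le; omega
  have hcard : Nat.card (ZMod p)ˣ = p - 1 := by
    rw [Nat.card_eq_fintype_card, ZMod.card_units_eq_totient, Nat.totient_prime hp]
  have hmul : orderOf u * (Subgroup.zpowers u).index = p - 1 := by
    rw [← hcard, ← Nat.card_zpowers]
    exact Subgroup.card_mul_index _
  have ha1 : 1 ≤ a := by
    rcases Nat.eq_zero_or_pos a with h | h
    · subst h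
      rw [Nat.coprime_zero_left] at ha
      subst ha
      have := Nat.le_of_dvd one_pos h2
      omega
    · exact h
  rw [Nat.dvd_iff_prime_pow_dvd_dvd]
  intro l k hl hk
  rcases Nat.eq_zero_or_pos k with h0 | hk0
  · subst h0; simp
  have hli : l ∣ (Subgroup.zpowers u).index := (dvd_pow_self l hk0.ne').trans hk
  have hkp : l ^ k ∣ p - 1 := hk.trans ⟨orderOf u, by rw [← hmul]; ring⟩
  have hlp : l ∣ p - 1 := (dvd_pow_self l hk0.ne').trans hkp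
  by_cases hlm : l ∣ m
  · -- transfer of divisibility
    have htr : ∀ j : ℕ, l ^ j ∣ m → l ^ j ∣ p - 1 → l ^ j ∣ a - 1 := by
      intro j h3 h4
      have h5 : p ≡ a [MOD l ^ j] := hpa.of_dvd h3
      have h6 : p ≡ 1 [MOD l ^ j] := ((Nat.modEq_iff_dvd' hp.one_lt.le).2 h4).symm
      exact (Nat.modEq_iff_dvd' ha1).1 (h6.symm.trans h5)
    by_cases hkm : l ^ k ∣ m
    · exact Nat.dvd_gcd (htr k hkm hkp) hkm
    · exfalso
      obtain ⟨e, he1, he2⟩ : ∃ e, l ^ e ∣ m ∧ ¬ l ^ (e + 1) ∣ m :=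
        ⟨m.factorization l, Nat.ordProj_dvd m l, Nat.pow_succ_factorization_not_dvd (by omega) hl⟩
      have hek : e ≤ k := by
        by_contra hcon
        exact hkm ((pow_dvd_pow l (by omega)).trans he1)
      have h3 := htr e he1 ((pow_dvd_pow l hek).trans hkp)
      have h4 : l ^ e ∣ Nat.gcd (a - 1) m := Nat.dvd_gcd h3 he1
      apply he2
      have h5 := hcond l hl hlm
      have h6 : Nat.gcd (a - 1) m * (m / Nat.gcd (a - 1) m) = m :=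
        Nat.mul_div_cancel' (Nat.gcd_dvd_right _ _)
      rw [pow_succ, ← h6]
      exact mul_dvd_mul h4 h5
  · exfalso
    apply hu l hl hlp (hz l hl hlm hlp)
    obtain ⟨t, ht⟩ := hli
    have h3 : (p - 1) / l = orderOf u * t := by
      rw [← hmul, ht]
      apply Nat.div_eq_of_eq_mul_right hl.pos
      ring
    rw [h3, ← Units.val_pow_eq_pow_val, pow_mul, pow_orderOf_eq_one, one_pow, Units.val_one]

theorem PI_of {m a p z g : ℕ} (hp : p.Prime) (h2 : 2 ∣ m) (hm : 1 ≤ m) (ha : a.Coprime m)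
    (hcond : ∀ l : ℕ, l.Prime → l ∣ m → l ∣ m / Nat.gcd (a - 1) m)
    (hpa : p ≡ a [MOD m]) (hz : ∀ q : ℕ, q.Prime → ¬ q ∣ m → q ∣ p - 1 → z < q) (hz2 : 2 ≤ z)
    (h : NP z p g) : PI (Nat.gcd (a - 1) m) p g := by
  obtain ⟨h3, h4⟩ := h
  refine ⟨h3, fun u hu => index_dvd hp h2 hm ha hcond hpa hz u fun l hl hlp hzl => ?_⟩
  rcases hu with hu | hu
  · rw [hu]; exact h4 l hl hlp hzl
  · rw [hu]
    have hpodd : 2 ∣ p - 1 := by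
      have h5 : p ≡ a [MOD 2] := hpa.of_dvd h2
      have h6 : ¬ 2 ∣ a := fun h => by
        have := Nat.dvd_gcd h h2
        rw [ha] at this
        exact absurd this (by norm_num)
      have h7 : p % 2 = a % 2 := h5
      have h8 : a % 2 = 1 := by omega
      omega
    have heven : Even ((p - 1) / l) := by
      rw [even_iff_two_dvd]
      have h5 : l * ((p - 1) / l) = p - 1 := Nat.mul_div_cancel' hlp
      rw [← h5] at hpodd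
      rcases Nat.prime_two.dvd_mul.1 hpodd with h6 | h6
      · have := (Nat.prime_dvd_prime_iff_eq Nat.prime_two hl).1 h6
        omega
      · exact h6
    rw [heven.neg_pow]
    exact h4 l hl hlp hzl

open Classical in
theorem mainTS : ∃ c κ : ℝ, ∃ K : ℕ, 0 < c ∧ c < 1 ∧ 0 < κ ∧ ∀ m a : ℕ, 1 ≤ m → 2 ∣ m → a.Coprime m →
    (∀ l : ℕ, l.Prime → l ∣ m → l ∣ m / Nat.gcd (a - 1) m) → ∃ η : ℝ, 0 < η ∧
    (∀ᶠ x : ℕ in atTop, η * ((x : ℝ) / (Real.log x) ^ 2) ≤ ((TS m a x ⌊(x : ℝ) ^ c⌋₊).card : ℝ) ∧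
    ∀ B M G : Finset ℕ, Ind B M → (∀ t ∈ B, 1 ≤ t ∧ (t : ℝ) ≤ (x : ℝ) ^ κ) →
      (∀ m ∈ M, 1 ≤ m ∧ (m : ℝ) ≤ (x : ℝ) ^ κ) →
      (G.card : ℝ) ≤ (x : ℝ) ^ κ → (∀ g ∈ G, Real.log g ≤ (x : ℝ) ^ κ) →
      (((TS m a x ⌊(x : ℝ) ^ c⌋₊).filter
        (fun p => ¬ Few K B M G (PI (Nat.gcd (a - 1) m) p))).card : ℝ) ≤ (x : ℝ) ^ (1 - κ)) ∧
    ∀ B : Finset ℕ, (∀ t ∈ B, 2 ≤ t) →
    ∀ S : Set ℕ, (∀ M : Finset ℕ, (M : Set ℕ) ⊆ S → Ind B M) → (∀ m ∈ S, 1 ≤ m) →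
    ∃ E : Finset ℕ, E.card ≤ K ∧ ∀ F : Finset ℕ, (F : Set ℕ) ⊆ S → Disjoint F E →
      ∃ θ : ℝ, 0 < θ ∧ ∃ᶠ x : ℕ in atTop, θ * ((x : ℝ) / (Real.log x) ^ 2) ≤
        (((TS m a x ⌊(x : ℝ) ^ c⌋₊).filter (fun p => ∀ g : ℕ, Gen B F g →
          Real.log g ≤ (x : ℝ) ^ (κ / (((F.card + B.card : ℕ) : ℝ) + 1)) →
          PI (Nat.gcd (a - 1) m) p g)).card : ℝ) := by
  obtain ⟨c, hc, hc1, hT⟩ := TS_lower
  obtain ⟨κ, hκ⟩ : ∃ κ, κ = ka c := ⟨_, rfl⟩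
  have hκ0 : 0 < κ := hκ ▸ ka_pos hc
  refine ⟨c, κ, ⌈1 / c⌉₊ * kk c, hc, hc1, hκ0, fun m a hm h2 ha hcond => ?_⟩
  obtain ⟨η, hη, hη2⟩ := hT m a hm ha
  have h3 := tendsto_natCast_atTop_atTop (R := ℝ)
  have e1 : ∀ᶠ x : ℕ in atTop, (2 : ℝ) ≤ (x : ℝ) ^ c :=
    h3.eventually ((tendsto_rpow_atTop hc).eventually_ge_atTop 2)
  have hmain : ∀ᶠ x : ℕ in atTop,
      η * ((x : ℝ) / (Real.log x) ^ 2) ≤ ((TS m a x ⌊(x : ℝ) ^ c⌋₊).card : ℝ) ∧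
      ∀ B M G : Finset ℕ, Ind B M → (∀ t ∈ B, 1 ≤ t ∧ (t : ℝ) ≤ (x : ℝ) ^ κ) →
      (∀ m ∈ M, 1 ≤ m ∧ (m : ℝ) ≤ (x : ℝ) ^ κ) →
      (G.card : ℝ) ≤ (x : ℝ) ^ κ → (∀ g ∈ G, Real.log g ≤ (x : ℝ) ^ κ) →
      (((TS m a x ⌊(x : ℝ) ^ c⌋₊).filter
        (fun p => ¬ Few (⌈1 / c⌉₊ * kk c) B M G (PI (Nat.gcd (a - 1) m) p))).card : ℝ) ≤
          (x : ℝ) ^ (1 - κ) := by
    filter_upwards [hη2, core c hc hc1, e1] with x hx1 hx2 hx3
    refine ⟨hx1, fun B M G hM hBb hMb hGc hGb => ?_⟩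
    rw [hκ] at hBb hMb hGc hGb ⊢
    refine le_trans ?_ (hx2 B M G hM hBb hMb hGc hGb)
    have hz2 : 2 ≤ ⌊(x : ℝ) ^ c⌋₊ := Nat.le_floor (by exact_mod_cast hx3)
    have hsub : (TS m a x ⌊(x : ℝ) ^ c⌋₊).filter
        (fun p => ¬ Few (⌈1 / c⌉₊ * kk c) B M G (PI (Nat.gcd (a - 1) m) p)) ⊆
        (Icc 1 x).filter (fun p => p.Prime ∧
        ¬ Few (⌈1 / c⌉₊ * kk c) B M G (NP ⌊(x : ℝ) ^ c⌋₊ p)) := by
      intro p hp
      rw [mem_filter, mem_TS h2] at hp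
      obtain ⟨⟨⟨hp1, hpx⟩, hpp, hpa, hpz⟩, hpF⟩ := hp
      rw [mem_filter, mem_Icc]
      refine ⟨⟨hp1, hpx⟩, hpp, fun hF => hpF ?_⟩
      obtain ⟨E, hE, hEc, hg⟩ := hF
      exact ⟨E, hE, hEc, fun g hgG hgen =>
        PI_of hpp h2 hm ha hcond hpa hpz hz2 (hg g hgG hgen)⟩
    exact_mod_cast card_le_card hsub
  refine ⟨η, hη, hmain, ?_⟩
  intro B hB S hS h1
  obtain ⟨E, hEK, hE⟩ := abs_inf _ κ hκ0 (fun x => TS m a x ⌊(x : ℝ) ^ c⌋₊)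
    (PI (Nat.gcd (a - 1) m)) (fun x => η * ((x : ℝ) / (Real.log x) ^ 2))
    ((ev_w0 2).mono fun x hx => mul_pos hη hx)
    (fun C => by
      filter_upwards [ev_w 2 κ hκ0 (C / η)] with x hx
      have h2 := mul_le_mul_of_nonneg_left hx hη.le
      refine le_trans (le_of_eq ?_) h2
      field_simp) hmain B hB S hS h1
  refine ⟨E, hEK, fun F hF hd => ?_⟩
  obtain ⟨θ, hθ, h2⟩ := hE F hF hd
  refine ⟨θ * η, by positivity, h2.mono fun x hx => ?_⟩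
  refine le_trans (le_of_eq ?_) hx
  ring

end Pool.Agent.Y892.TD
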