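import Pool.Agent.Y892.TD.D5
import Pool.Agent.Y892.TB.C7

/-!
Windows with many primes: the general theorem, with fixed factors.
-/

set_option autoImplicit false

open Finset Filter

namespace Pool.Agent.Y892.TD

open Pool.Agent.Y855
open Pool.Agent.Y892.TB (ka kk ka_pos kk_pos ka_le pow_cond ev_w ev_w0 Win mem_T8_of mem_T8)

/-- the indices of `g` and `-g` modulo all primes in the window divide two -/
def WPI (H N g : ℕ) : Prop := ∀ p ∈ Ioc N (N + H), p.Prime → PI 2 p g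

theorem PI2_of {p z g : ℕ} (hp : p.Prime) (h4 : p % 4 = 3)
    (hz : ∀ q : ℕ, q.Prime → 3 ≤ q → q ∣ p - 1 → z < q) (hz2 : 2 ≤ z) (h : NP z p g) :
    PI 2 p g := by
  have hg : Nat.gcd (3 - 1) 4 = 2 := by decide
  have := PI_of (m := 4) (a := 3) hp (by norm_num) (by norm_num) (by decide) (by
    intro l hl hl4
    have h5 : l ∣ 2 ^ 2 := by simpa using hl4
    have h6 := (Nat.prime_dvd_prime_iff_eq hl Nat.prime_two).1 (hl.dvd_of_dvd_pow h5)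
    subst h6
    rw [hg]) (by
    show p % 4 = 3 % 4
    omega) (by
    intro q hq hq4 hqd
    refine hz q hq ?_ hqd
    have : q ≠ 2 := by rintro rfl; exact hq4 (by norm_num)
    have := hq.two_le
    omega) hz2 h
  rwa [hg] at this

open Classical in
theorem windowsD (m : ℕ) : ∃ H A K : ℕ, ∃ c κ : ℝ, 0 < c ∧ 0 < κ ∧ κ ≤ 1 / 2 ∧
    ∀ᶠ x : ℕ in atTop,
    (x : ℝ) / Real.log x ^ A ≤ (((Icc 1 x).filter (Win m H c x)).card : ℝ) ∧
    ∀ B M G : Finset ℕ, Ind B M → (∀ t ∈ B, 1 ≤ t ∧ (t : ℝ) ≤ (x : ℝ) ^ κ) →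
      (∀ m ∈ M, 1 ≤ m ∧ (m : ℝ) ≤ (x : ℝ) ^ κ) →
      (G.card : ℝ) ≤ (x : ℝ) ^ κ → (∀ g ∈ G, Real.log g ≤ (x : ℝ) ^ κ) →
      ((((Icc 1 x).filter (Win m H c x)).filter (fun N => ¬ Few K B M G (WPI H N))).card : ℝ) ≤
        (x : ℝ) ^ (1 - κ) := by
  obtain ⟨δ, hδ, H, A, hBc⟩ := Pool.Agent.Y848.MS.thmB_core m
  obtain ⟨c, hc, hcδ, hc1⟩ : ∃ c : ℝ, 0 < c ∧ c ≤ δ ∧ c ≤ 1 :=
    ⟨min δ 1, lt_min hδ one_pos, min_le_left _ _, min_le_right _ _⟩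
  have hc20 : 0 < c / 2 := by positivity
  have hc21 : c / 2 < 1 := by linarith
  obtain ⟨K₀, hK₀⟩ : ∃ K₀ : ℕ, K₀ = ⌈1 / (c / 2)⌉₊ := ⟨_, rfl⟩
  obtain ⟨κ, hκ⟩ : ∃ κ : ℝ, κ = ka (c / 2) := ⟨_, rfl⟩
  obtain ⟨k, hk⟩ : ∃ k : ℕ, k = kk (c / 2) := ⟨_, rfl⟩
  have hκ0 : 0 < κ := hκ ▸ ka_pos hc20
  have hκk : (3 * (k : ℝ) + 3) * κ = (c / 2) / 8 := by rw [hk, hκ]; exact ka_le hc20
  have hk0 : (0 : ℝ) ≤ k := Nat.cast_nonneg k
  have hκc : κ ≤ (c / 2) / 8 := by nlinarith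
  refine ⟨H, A, H * (K₀ * k), c, κ / 2, hc, by positivity, by linarith, ?_⟩
  have h3 := tendsto_natCast_atTop_atTop (R := ℝ)
  have hshift : Tendsto (fun x : ℕ => x + H) atTop atTop := tendsto_add_atTop_nat H
  have e1 : ∀ᶠ x : ℕ in atTop, (8 : ℝ) * (H + 1) ≤ (x : ℝ) ^ (κ / 2) :=
    h3.eventually ((tendsto_rpow_atTop (by positivity)).eventually_ge_atTop _)
  have e2 : ∀ᶠ x : ℕ in atTop, (2 : ℝ) ≤ (x : ℝ) ^ (c / 2) :=
    h3.eventually ((tendsto_rpow_atTop (by positivity)).eventually_ge_atTop _)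
  filter_upwards [h3.eventually hBc, hshift.eventually (core (c / 2) hc20 hc21), e1,
    eventually_ge_atTop (H + 2), e2] with x hx1 hx2 hx3 hx4 hx5
  have hxn : 2 ≤ x := by omega
  have hx : (2 : ℝ) ≤ x := by exact_mod_cast hxn
  have hx0 : (0 : ℝ) < x := by linarith
  have hx2' : 2 * x ≤ x ^ 2 := by nlinarith
  constructor
  · refine hx1.trans ?_
    have h4 : (Icc 1 ⌊(x : ℝ)⌋₊).filter (fun N => Pool.Agent.Y848.MS.GoodB m H δ x N) ⊆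
        (Icc 1 x).filter (Win m H c x) := by
      intro N hN
      rw [mem_filter, Nat.floor_natCast] at hN
      rw [mem_filter]
      refine ⟨hN.1, hN.2.1, fun p hp hpp => ⟨(hN.2.2 p hp hpp).1, fun q hq hqd => ?_⟩⟩
      refine lt_of_le_of_lt ?_ ((hN.2.2 p hp hpp).2.1 q hq hqd)
      exact Real.rpow_le_rpow_of_exponent_le (by linarith) hcδ
    exact_mod_cast card_le_card h4
  intro B M G hM hBb hMb hGc hGl
  obtain ⟨X, hX⟩ : ∃ X : ℕ, X = x + H := ⟨_, rfl⟩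
  have hXx : x ≤ X := by omega
  have hXxr : (x : ℝ) ≤ X := by exact_mod_cast hXx
  have hX2 : (X : ℝ) ≤ 2 * x := by
    have : X ≤ 2 * x := by omega
    exact_mod_cast this
  have hX0 : (0 : ℝ) < X := by linarith
  obtain ⟨z, hz⟩ : ∃ z : ℕ, z = ⌊(X : ℝ) ^ (c / 2)⌋₊ := ⟨_, rfl⟩
  have hpow : (x : ℝ) ^ (κ / 2) ≤ (X : ℝ) ^ κ :=
    (Real.rpow_le_rpow_of_exponent_le (by linarith) (by linarith)).trans
      (Real.rpow_le_rpow hx0.le hXxr hκ0.le)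
  have hz2 : 2 ≤ z := by
    rw [hz]
    apply Nat.le_floor
    have h4 := Real.rpow_le_rpow hx0.le hXxr hc20.le
    push_cast
    linarith
  have hEx := hx2 B M G hM (by
    rw [← hX, ← hκ]
    exact fun t ht => ⟨(hBb t ht).1, (hBb t ht).2.trans hpow⟩) (by
    rw [← hX, ← hκ]
    exact fun t ht => ⟨(hMb t ht).1, (hMb t ht).2.trans hpow⟩) (by
    rw [← hX, ← hκ]
    exact hGc.trans hpow) (by
    rw [← hX, ← hκ]
    exact fun g hg => (hGl g hg).trans hpow)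
  rw [← hX, ← hκ, ← hk, ← hK₀, ← hz] at hEx
  -- the exceptional windows
  obtain ⟨Y, hY⟩ : ∃ Y, Y = (Icc 1 X).filter
    (fun p => p.Prime ∧ ¬ Few (K₀ * k) B M G (NP z p)) := ⟨_, rfl⟩
  rw [← hY] at hEx
  have hsub : ((Icc 1 x).filter (Win m H c x)).filter (fun N =>
        ¬ Few (H * (K₀ * k)) B M G (WPI H N)) ⊆ Y.biUnion (fun p => Ico (p - H) p) := by
    intro N hN
    rw [mem_filter, mem_filter, mem_Icc] at hN
    obtain ⟨⟨⟨hN1, hNx⟩, hW⟩, hF⟩ := hN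
    by_contra hcon
    apply hF
    have hpt : ∀ p ∈ Ioc N (N + H), p.Prime →
        ∃ E ⊆ M, E.card ≤ K₀ * k ∧ ∀ g ∈ G, Gen B (M \ E) g → PI 2 p g := by
      intro p hp hpp
      have hpY : p ∉ Y := by
        intro hpE
        apply hcon
        rw [mem_biUnion]
        refine ⟨p, hpE, ?_⟩
        rw [mem_Ioc] at hp
        rw [mem_Ico]
        omega
      have hT := mem_T8_of hc (by omega) (by omega) hNx hx2' hW hp hpp
      rw [← hX, ← hz, mem_T8] at hT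
      rw [hY, mem_filter, mem_Icc] at hpY
      have hF2 : Few (K₀ * k) B M G (NP z p) := by
        by_contra hno
        exact hpY ⟨hT.1, hpp, hno⟩
      obtain ⟨E, hE, hEc, hg⟩ := hF2
      refine ⟨E, hE, hEc, fun g hgG hgen => PI2_of hpp (by have := hT.2.2.1; omega) ?_ hz2
        (hg g hgG hgen)⟩
      intro q hq hq3 hqd
      by_contra hqz
      exact hT.2.2.2 q hq hq3 (by omega) hqd
    have hch : ∀ p : ℕ, ∃ E ⊆ M, E.card ≤ K₀ * k ∧ (p ∈ Ioc N (N + H) → p.Prime →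
        ∀ g ∈ G, Gen B (M \ E) g → PI 2 p g) := by
      intro p
      by_cases hp : p ∈ Ioc N (N + H) ∧ p.Prime
      · obtain ⟨E, h4, h5, h6⟩ := hpt p hp.1 hp.2
        exact ⟨E, h4, h5, fun _ _ => h6⟩
      · exact ⟨∅, empty_subset _, by simp, fun h4 h5 => absurd ⟨h4, h5⟩ hp⟩
    choose E hEM hEc hE using hch
    refine ⟨(Ioc N (N + H)).biUnion E, ?_, ?_, ?_⟩
    · intro t ht
      rw [mem_biUnion] at ht
      obtain ⟨p, -, ht⟩ := ht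
      exact hEM p ht
    · calc ((Ioc N (N + H)).biUnion E).card ≤ ∑ p ∈ Ioc N (N + H), (E p).card := card_biUnion_le
        _ ≤ ∑ _p ∈ Ioc N (N + H), K₀ * k := sum_le_sum fun p _ => hEc p
        _ = H * (K₀ * k) := by
            rw [sum_const, smul_eq_mul, Nat.card_Ioc, Nat.add_sub_cancel_left]
    · intro g hg hgen p hp hpp
      refine hE p hp hpp g hg (hgen.mono ?_)
      apply sdiff_subset_sdiff subset_rfl
      intro t ht
      rw [mem_biUnion]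
      exact ⟨p, hp, ht⟩
  have h4 : ((((Icc 1 x).filter (Win m H c x)).filter (fun N =>
        ¬ Few (H * (K₀ * k)) B M G (WPI H N))).card : ℝ) ≤ (Y.card : ℝ) * H := by
    have h5 := (card_le_card hsub).trans (card_biUnion_le.trans (sum_le_card_nsmul _ _ H
      (fun p _ => by rw [Nat.card_Ico]; omega)))
    rw [smul_eq_mul] at h5
    exact_mod_cast h5
  refine h4.trans ?_
  have h5 : (X : ℝ) ^ (1 - κ) ≤ 2 * (x : ℝ) ^ (1 - κ) := by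
    calc (X : ℝ) ^ (1 - κ) ≤ (2 * (x : ℝ)) ^ (1 - κ) :=
          Real.rpow_le_rpow hX0.le hX2 (by linarith)
      _ = 2 ^ (1 - κ) * (x : ℝ) ^ (1 - κ) := Real.mul_rpow (by norm_num) hx0.le
      _ ≤ 2 * (x : ℝ) ^ (1 - κ) := by
          apply mul_le_mul_of_nonneg_right _ (by positivity)
          calc (2 : ℝ) ^ (1 - κ) ≤ 2 ^ (1 : ℝ) :=
                Real.rpow_le_rpow_of_exponent_le (by norm_num) (by linarith)
            _ = 2 := Real.rpow_one _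
  have hxp : 0 < (x : ℝ) ^ (1 - κ) := by positivity
  have hH0 : (0 : ℝ) ≤ H := Nat.cast_nonneg H
  calc (Y.card : ℝ) * H ≤ (2 * (x : ℝ) ^ (1 - κ)) * H := by
        apply mul_le_mul_of_nonneg_right (hEx.trans h5) hH0
    _ ≤ (8 * (H + 1)) * (x : ℝ) ^ (1 - κ) := by nlinarith
    _ ≤ (x : ℝ) ^ (κ / 2) * (x : ℝ) ^ (1 - κ) :=
        mul_le_mul_of_nonneg_right hx3 hxp.le
    _ = (x : ℝ) ^ (κ / 2 + (1 - κ)) := by rw [← Real.rpow_add hx0]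
    _ ≤ (x : ℝ) ^ (1 - κ / 2) := by
        apply Real.rpow_le_rpow_of_exponent_le (by linarith)
        linarith

open Classical in
theorem windowsD2 (m : ℕ) : ∃ H A K : ℕ, ∃ c κ : ℝ, 0 < c ∧ 0 < κ ∧
    (∀ᶠ x : ℕ in atTop,
    (x : ℝ) / Real.log x ^ A ≤ (((Icc 1 x).filter (Win m H c x)).card : ℝ) ∧
    ∀ B M G : Finset ℕ, Ind B M → (∀ t ∈ B, 1 ≤ t ∧ (t : ℝ) ≤ (x : ℝ) ^ κ) →
      (∀ m ∈ M, 1 ≤ m ∧ (m : ℝ) ≤ (x : ℝ) ^ κ) →
      (G.card : ℝ) ≤ (x : ℝ) ^ κ → (∀ g ∈ G, Real.log g ≤ (x : ℝ) ^ κ) →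
      ((((Icc 1 x).filter (Win m H c x)).filter (fun N => ¬ Few K B M G (WPI H N))).card : ℝ) ≤
        (x : ℝ) ^ (1 - κ)) ∧
    ∀ B : Finset ℕ, (∀ t ∈ B, 2 ≤ t) →
    ∀ S : Set ℕ, (∀ M : Finset ℕ, (M : Set ℕ) ⊆ S → Ind B M) → (∀ m ∈ S, 1 ≤ m) →
    ∃ E : Finset ℕ, E.card ≤ K ∧ ∀ F : Finset ℕ, (F : Set ℕ) ⊆ S → Disjoint F E →
      ∃ θ : ℝ, 0 < θ ∧ ∃ᶠ x : ℕ in atTop, θ * ((x : ℝ) / (Real.log x) ^ A) ≤
        ((((Icc 1 x).filter (Win m H c x)).filter (fun N => ∀ g : ℕ, Gen B F g →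
          Real.log g ≤ (x : ℝ) ^ (κ / (((F.card + B.card : ℕ) : ℝ) + 1)) → WPI H N g)).card : ℝ) := by
  obtain ⟨H, A, K, c, κ, hc, hκ, hκ2, h⟩ := windowsD m
  refine ⟨H, A, K, c, κ, hc, hκ, h, ?_⟩
  intro B hB S hS h1
  exact abs_inf K κ hκ (fun x => (Icc 1 x).filter (Win m H c x)) (WPI H)
    (fun x => (x : ℝ) / (Real.log x) ^ A) (ev_w0 A) (fun C => ev_w A κ hκ C) h B hB S hS h1

end Pool.Agent.Y892.TD
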